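import Pool.Agent.P.MP_a06b07_gt.Base

set_option autoImplicit false

namespace Pool.Agent.Results.MP_a06b07_gt.AlephOneBase

/-- There is a compact Hausdorff left-separated space `X` with a point `p` such that every other
point has a countable compact open neighbourhood, `X \ {p}` maps continuously and injectively into
the Cantor set, the least number of discrete subspaces that cover `X` is `ℵ₁`, and countably many
subspaces with a point-countable base do not cover `X`. -/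
theorem result :
    ∃ (X : Type) (_ : TopologicalSpace X) (_ : CompactSpace X) (_ : T2Space X)
      (r : X → X → Prop) (p : X),
      IsWellOrder X r ∧ (∀ x : X, IsOpen {y : X | ¬ r y x}) ∧
      (∀ x : X, x ≠ p → ∃ V : Set X, x ∈ V ∧ IsOpen V ∧ IsCompact V ∧ V.Countable) ∧
      (∃ f : X → ℕ → Bool, ContinuousOn f {p}ᶜ ∧ Set.InjOn f {p}ᶜ) ∧
      IsLeast {κ : Cardinal | ∃ 𝒟 : Set (Set X),
        Cardinal.mk 𝒟 = κ ∧ ⋃₀ 𝒟 = Set.univ ∧ ∀ D ∈ 𝒟, DiscreteTopology D} (Cardinal.aleph 1) ∧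
      ¬ ∃ D : ℕ → Set X, (⋃ n, D n) = Set.univ ∧ ∀ n, ∃ ℬ : Set (Set (D n)),
        TopologicalSpace.IsTopologicalBasis ℬ ∧ ∀ x, {B ∈ ℬ | x ∈ B}.Countable :=
  ⟨OnePoint Pool.Agent.P.MP_a06b07_gt.Y, inferInstance, inferInstance, inferInstance,
    Pool.Agent.P.MP_a06b07_gt.rel, OnePoint.infty, Pool.Agent.P.MP_a06b07_gt.isWellOrder_rel,
    Pool.Agent.P.MP_a06b07_gt.isOpen_final, Pool.Agent.P.MP_a06b07_gt.exists_nhd,
    Pool.Agent.P.MP_a06b07_gt.exists_inj, Pool.Agent.P.MP_a06b07_gt.isLeast_dis, by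
      rintro ⟨D, h1, h2⟩
      choose ℬ h2 h3 using h2
      exact Pool.Agent.P.MP_a06b07_gt.not_base D h1 ℬ h2 h3⟩

end Pool.Agent.Results.MP_a06b07_gt.AlephOneBase
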